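import Mathlib

/-!
If a graph is locatable in the robber locating game, so is the graph obtained from it by
subdividing every edge once.
-/

set_option autoImplicit false

namespace Pool.Agent.Results.MP_6ae049_co.SubdivLocatable

universe u

/-- `r t` is the robber's vertex after `t` rounds: in each round he stays or moves along an edge. -/
def IsRobberWalk {V : Type u} (G : SimpleGraph V) (r : ℕ → V) : Prop :=
  ∀ t, r (t + 1) = r t ∨ G.Adj (r t) (r (t + 1))

/-- The answers of the first `t` rounds, in order, when the cop chooses each probe as a function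
`σ` of the earlier answers and the robber follows `r`. -/
noncomputable def answers {V : Type u} (G : SimpleGraph V) (σ : List ℕ∞ → V) (r : ℕ → V) :
    ℕ → List ℕ∞
  | 0 => []
  | t + 1 => answers G σ r t ++ [G.edist (σ (answers G σ r t)) (r (t + 1))]

/-- The cop has a strategy such that, within a bounded number of rounds, the answers determine the
robber's current vertex, whatever the robber does. -/
def Locatable {V : Type u} (G : SimpleGraph V) : Prop :=
  ∃ (σ : List ℕ∞ → V) (N : ℕ), ∀ r, IsRobberWalk G r → ∃ t, 1 ≤ t ∧ t ≤ N ∧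
    ∀ r', IsRobberWalk G r' → answers G σ r' t = answers G σ r t → r' t = r t

/-- The graph obtained by subdividing every edge once. -/
def subdiv {V : Type u} (G : SimpleGraph V) : SimpleGraph (V ⊕ G.edgeSet) where
  Adj a b := (∃ (v : V) (e : G.edgeSet), a = Sum.inl v ∧ b = Sum.inr e ∧ v ∈ (e : Sym2 V)) ∨
    (∃ (v : V) (e : G.edgeSet), a = Sum.inr e ∧ b = Sum.inl v ∧ v ∈ (e : Sym2 V))
  symm := ⟨fun _ _ h => h.elim (fun ⟨v, e, h1, h2, h3⟩ => Or.inr ⟨v, e, h2, h1, h3⟩)
    (fun ⟨v, e, h1, h2, h3⟩ => Or.inl ⟨v, e, h2, h1, h3⟩)⟩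
  loopless := ⟨fun _ h => h.elim
    (fun ⟨_, _, h1, h2, _⟩ => Sum.inl_ne_inr (h1.symm.trans h2))
    (fun ⟨_, _, h1, h2, _⟩ => Sum.inl_ne_inr (h2.symm.trans h1))⟩

section Game

variable {V : Type u} (G : SimpleGraph V)

/-- The vertices the robber can reach from `S` in one round, at distance `d` from `v`. -/
def part (S : Set V) (v : V) (d : ℕ∞) : Set V :=
  {y | (∃ x ∈ S, y = x ∨ G.Adj x y) ∧ G.edist v y = d}

/-- The cop wins within `j` rounds if she knows that the robber is in `S`. -/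
def Win : ℕ → Set V → Prop
  | 0, S => S.Subsingleton
  | j + 1, S => S.Subsingleton ∨ ∃ v, ∀ d, Win j (part G S v d)

/-- The strategy form of `Win`. -/
def WinsFrom (S : Set V) (σ : List ℕ∞ → V) (N : ℕ) : Prop :=
  ∀ r, IsRobberWalk G r → r 0 ∈ S → ∃ t ≤ N,
    ∀ r', IsRobberWalk G r' → r' 0 ∈ S → answers G σ r' t = answers G σ r t → r' t = r t

variable {G}

theorem Win.of_subsingleton {j : ℕ} {S : Set V} (h : S.Subsingleton) : Win G j S := by
  cases j with
  | zero => exact h
  | succ j => exact Or.inl h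

theorem answers_succ (σ : List ℕ∞ → V) (r : ℕ → V) (t : ℕ) :
    answers G σ r (t + 1) = G.edist (σ []) (r 1) ::
      answers G (fun h => σ (G.edist (σ []) (r 1) :: h)) (fun s => r (s + 1)) t := by
  induction t with
  | zero => simp [answers]
  | succ t ih =>
    rw [answers, ih]
    simp [answers]

/-- The walk that starts at `x` and then follows `r`. -/
def prepend (x : V) (r : ℕ → V) : ℕ → V
  | 0 => x
  | t + 1 => r t

theorem prepend_walk {x : V} {r : ℕ → V} (hr : IsRobberWalk G r) (h : r 0 = x ∨ G.Adj x (r 0)) :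
    IsRobberWalk G (prepend x r) := by
  intro t
  cases t with
  | zero => exact h
  | succ t => exact hr t

theorem const_walk (x : V) : IsRobberWalk G (fun _ => x) := fun _ => Or.inl rfl

theorem win_of_winsFrom (j : ℕ) (S : Set V) (σ : List ℕ∞ → V) (h : WinsFrom G S σ j) :
    Win G j S := by
  induction j generalizing S σ with
  | zero =>
    intro x hx y hy
    obtain ⟨t, ht, h1⟩ := h (fun _ => y) (const_walk y) hy
    obtain rfl : t = 0 := by omega
    exact h1 (fun _ => x) (const_walk x) hx rfl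
  | succ j ih =>
    by_cases hS : S.Subsingleton
    · exact Or.inl hS
    refine Or.inr ⟨σ [], fun d => ih _ (fun l => σ (d :: l)) ?_⟩
    rintro r hr ⟨⟨x, hx, hxr⟩, hd⟩
    obtain ⟨t, ht, h1⟩ := h (prepend x r) (prepend_walk hr hxr) hx
    cases t with
    | zero =>
      exfalso
      apply hS
      intro a ha b hb
      exact (h1 (fun _ => a) (const_walk a) ha rfl).trans
        (h1 (fun _ => b) (const_walk b) hb rfl).symm
    | succ t =>
      refine ⟨t, by omega, ?_⟩
      rintro r' hr' ⟨⟨x', hx', hxr'⟩, hd'⟩ he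
      refine h1 (prepend x' r') (prepend_walk hr' hxr') hx' ?_
      rw [answers_succ, answers_succ]
      simp only [prepend, hd, hd']
      rw [he]

theorem winsFrom_of_win [Nonempty V] (j : ℕ) (S : Set V) (h : Win G j S) :
    ∃ σ, WinsFrom G S σ j := by
  have base : ∀ (j : ℕ) (S : Set V), S.Subsingleton → ∃ σ, WinsFrom G S σ j := fun j S hS =>
    ⟨fun _ => Classical.arbitrary V, fun r _ h0 => ⟨0, Nat.zero_le _, fun r' _ h0' _ => hS h0' h0⟩⟩
  induction j generalizing S with
  | zero => exact base 0 S h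
  | succ j ih =>
    rcases h with h | ⟨v, hv⟩
    · exact base _ S h
    choose τ hτ using fun d => ih _ (hv d)
    let σ : List ℕ∞ → V := fun l => match l with
      | [] => v
      | d :: l => τ d l
    refine ⟨σ, fun r hr h0 => ?_⟩
    have h1 : r 1 ∈ part G S v (G.edist v (r 1)) := ⟨⟨r 0, h0, hr 0⟩, rfl⟩
    obtain ⟨t, ht, h2⟩ := hτ (G.edist v (r 1)) (fun s => r (s + 1)) (fun s => hr (s + 1)) h1
    refine ⟨t + 1, by omega, fun r' hr' h0' he => ?_⟩
    rw [answers_succ, answers_succ, List.cons.injEq] at he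
    obtain ⟨e1, e2⟩ := he
    have e3 : G.edist v (r' 1) = G.edist v (r 1) := e1
    refine h2 (fun s => r' (s + 1)) (fun s => hr' (s + 1)) ⟨⟨r' 0, h0', hr' 0⟩, e3⟩ ?_
    rw [e1] at e2
    exact e2

end Game

section Dist

variable {V : Type u} {G : SimpleGraph V}

theorem adj_inl_inr {x : V} {e : G.edgeSet} (h : x ∈ (e : Sym2 V)) :
    (subdiv G).Adj (Sum.inl x) (Sum.inr e) := Or.inl ⟨x, e, rfl, rfl, h⟩

theorem edist_le_of_adj {W : Type u} {H : SimpleGraph W} (v : W) {a b : W} (h : H.Adj a b) :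
    H.edist v b ≤ H.edist v a + 1 := by
  have h1 : H.edist a b = 1 := SimpleGraph.edist_eq_one_iff_adj.mpr h
  rw [← h1]
  exact H.edist_triangle

theorem edist_inl_le (v x : V) :
    (subdiv G).edist (Sum.inl v) (Sum.inl x) ≤ 2 * G.edist v x := by
  by_cases ht : G.edist v x = ⊤
  · rw [ht]; simp
  obtain ⟨p, hp⟩ := SimpleGraph.exists_walk_of_edist_ne_top ht
  rw [← hp]
  clear hp ht
  induction p with
  | nil => simp
  | @cons a b c hab p ih =>
    let e : G.edgeSet := ⟨s(a, b), hab⟩
    have h1 : (subdiv G).edist (Sum.inl a) (Sum.inr e) = 1 :=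
      SimpleGraph.edist_eq_one_iff_adj.mpr (adj_inl_inr (Sym2.mem_mk_left a b))
    have h2 : (subdiv G).edist (Sum.inr e) (Sum.inl b) = 1 :=
      SimpleGraph.edist_eq_one_iff_adj.mpr (adj_inl_inr (Sym2.mem_mk_right a b)).symm
    calc (subdiv G).edist (Sum.inl a) (Sum.inl c)
        ≤ (subdiv G).edist (Sum.inl a) (Sum.inr e) + (subdiv G).edist (Sum.inr e) (Sum.inl c) :=
          SimpleGraph.edist_triangle
      _ ≤ (subdiv G).edist (Sum.inl a) (Sum.inr e) + ((subdiv G).edist (Sum.inr e) (Sum.inl b)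
          + (subdiv G).edist (Sum.inl b) (Sum.inl c)) := by
          gcongr
          exact SimpleGraph.edist_triangle
      _ ≤ 1 + (1 + 2 * (p.length : ℕ∞)) := by
          rw [h1, h2]
          gcongr
      _ = 2 * ((SimpleGraph.Walk.cons hab p).length : ℕ∞) := by
          rw [SimpleGraph.Walk.length_cons]
          push_cast
          ring

theorem walk_lower (v : V) (w z : V ⊕ G.edgeSet) (q : (subdiv G).Walk w z) (hz : z = Sum.inl v) :
    (∀ x, w = Sum.inl x → 2 * G.edist v x ≤ q.length) ∧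
    (∀ (e : G.edgeSet) (x y : V), w = Sum.inr e → (e : Sym2 V) = s(x, y) →
      2 * min (G.edist v x) (G.edist v y) + 1 ≤ q.length) := by
  induction q with
  | nil =>
    subst hz
    refine ⟨fun x hx => ?_, fun e x y h => by simp at h⟩
    obtain rfl : v = x := Sum.inl_injective hx
    simp
  | @cons a b c hab q ih =>
    obtain ⟨ih1, ih2⟩ := ih hz
    rw [SimpleGraph.Walk.length_cons]
    push_cast
    rcases hab with ⟨x, e, rfl, rfl, hx⟩ | ⟨x, e, rfl, rfl, hx⟩
    · refine ⟨fun x' hx' => ?_, fun e x y h => by simp at h⟩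
      obtain rfl : x = x' := Sum.inl_injective hx'
      obtain ⟨y, hy⟩ := Sym2.mem_iff_exists.mp hx
      have hadj : G.Adj x y := by
        have := e.2
        rwa [hy] at this
      have h1 := ih2 e x y rfl hy
      have h2 : G.edist v x ≤ min (G.edist v x) (G.edist v y) + 1 := by
        rcases le_total (G.edist v x) (G.edist v y) with h | h
        · rw [min_eq_left h]; exact le_self_add
        · rw [min_eq_right h]; exact edist_le_of_adj v hadj.symm
      calc 2 * G.edist v x ≤ 2 * (min (G.edist v x) (G.edist v y) + 1) := by gcongr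
        _ = (2 * min (G.edist v x) (G.edist v y) + 1) + 1 := by ring
        _ ≤ _ := by gcongr
    · refine ⟨fun x' hx' => by simp at hx', fun e' x' y' h he => ?_⟩
      obtain rfl : e = e' := Sum.inr_injective h
      have h1 := ih1 x rfl
      have h2 : min (G.edist v x') (G.edist v y') ≤ G.edist v x := by
        rw [he, Sym2.mem_iff] at hx
        rcases hx with rfl | rfl
        · exact min_le_left _ _
        · exact min_le_right _ _
      calc 2 * min (G.edist v x') (G.edist v y') + 1 ≤ 2 * G.edist v x + 1 := by gcongr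
        _ ≤ _ := by gcongr

theorem edist_inl (v x : V) : (subdiv G).edist (Sum.inl v) (Sum.inl x) = 2 * G.edist v x := by
  refine le_antisymm (edist_inl_le v x) ?_
  by_cases ht : (subdiv G).edist (Sum.inl v) (Sum.inl x) = ⊤
  · rw [ht]; exact le_top
  rw [SimpleGraph.edist_comm] at ht
  obtain ⟨q, hq⟩ := SimpleGraph.exists_walk_of_edist_ne_top ht
  rw [(subdiv G).edist_comm, ← hq]
  exact (walk_lower v _ _ q rfl).1 x rfl

theorem edist_inr (v x y : V) (e : G.edgeSet) (he : (e : Sym2 V) = s(x, y)) :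
    (subdiv G).edist (Sum.inl v) (Sum.inr e) = 2 * min (G.edist v x) (G.edist v y) + 1 := by
  apply le_antisymm
  · have hx : (subdiv G).Adj (Sum.inl x) (Sum.inr e) := adj_inl_inr (by rw [he]; simp)
    have hy : (subdiv G).Adj (Sum.inl y) (Sum.inr e) := adj_inl_inr (by rw [he]; simp)
    have h1 := edist_le_of_adj (Sum.inl v) hx
    have h2 := edist_le_of_adj (Sum.inl v) hy
    rw [edist_inl] at h1 h2
    rcases le_total (G.edist v x) (G.edist v y) with h | h
    · rwa [min_eq_left h]
    · rwa [min_eq_right h]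
  · by_cases ht : (subdiv G).edist (Sum.inl v) (Sum.inr e) = ⊤
    · rw [ht]; exact le_top
    rw [SimpleGraph.edist_comm] at ht
    obtain ⟨q, hq⟩ := SimpleGraph.exists_walk_of_edist_ne_top ht
    rw [(subdiv G).edist_comm, ← hq]
    exact (walk_lower v _ _ q rfl).2 e x y rfl he

theorem half_exists (d' : ℕ∞) : ∃ d : ℕ∞, (∀ a, 2 * a = d' → a = d) ∧
    (∀ a, 2 * a + 1 = d' → a = d) ∧ (∀ a b, 2 * a = d' → 2 * b + 1 = d' → d = ⊤) := by
  induction d' using ENat.recTopCoe with
  | top =>
    refine ⟨⊤, fun a h => ?_, fun a h => ?_, fun _ _ _ _ => rfl⟩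
    · induction a using ENat.recTopCoe with
      | top => rfl
      | coe a => exact absurd h (by norm_cast)
    · induction a using ENat.recTopCoe with
      | top => rfl
      | coe a => exact absurd h (by norm_cast)
  | coe n =>
    have key : ∀ a : ℕ∞, (2 * a = n ∨ 2 * a + 1 = n) → ∃ k : ℕ, a = k := by
      intro a h
      induction a using ENat.recTopCoe with
      | top => simp at h
      | coe a => exact ⟨a, rfl⟩
    refine ⟨((n / 2 : ℕ) : ℕ∞), fun a h => ?_, fun a h => ?_, fun a b h1 h2 => ?_⟩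
    · obtain ⟨k, rfl⟩ := key a (Or.inl h)
      norm_cast at h ⊢
      omega
    · obtain ⟨k, rfl⟩ := key a (Or.inr h)
      norm_cast at h ⊢
      omega
    · obtain ⟨k, rfl⟩ := key a (Or.inl h1)
      obtain ⟨l, rfl⟩ := key b (Or.inr h2)
      norm_cast at h1 h2
      omega

end Dist

section Shadow

variable {V : Type u} {G : SimpleGraph V}

/-- Every position in `R` is a vertex in `S` or the midpoint of an edge that meets `S`. -/
def Shadow (S : Set V) (R : Set (V ⊕ G.edgeSet)) : Prop :=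
  (∀ x, Sum.inl x ∈ R → x ∈ S) ∧ ∀ e : G.edgeSet, Sum.inr e ∈ R → ∃ x ∈ S, x ∈ (e : Sym2 V)

theorem adj_of_edge {e : G.edgeSet} {x y : V} (h : (e : Sym2 V) = s(x, y)) : G.Adj x y := by
  have := e.2
  rwa [h] at this

theorem shadow_step {S : Set V} {R : Set (V ⊕ G.edgeSet)} (h : Shadow S R) (v : V) (d' : ℕ∞) :
    (∀ y, Sum.inl y ∈ part (subdiv G) R (Sum.inl v) d' →
      (∃ x ∈ S, y = x ∨ G.Adj x y) ∧ 2 * G.edist v y = d') ∧
    (∀ e : G.edgeSet, Sum.inr e ∈ part (subdiv G) R (Sum.inl v) d' →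
      ∃ a b, (e : Sym2 V) = s(a, b) ∧ (∃ x ∈ S, a = x ∨ G.Adj x a) ∧
        (∃ x ∈ S, b = x ∨ G.Adj x b) ∧ G.edist v a ≤ G.edist v b ∧
        2 * G.edist v a + 1 = d') := by
  constructor
  · rintro y ⟨⟨w, hw, hy⟩, hd⟩
    rw [edist_inl] at hd
    refine ⟨?_, hd⟩
    rcases hy with rfl | ⟨_, _, -, h2, -⟩ | ⟨y', e, rfl, h2, h3⟩
    · exact ⟨y, h.1 y hw, Or.inl rfl⟩
    · simp at h2
    · obtain rfl : y = y' := Sum.inl_injective h2
      obtain ⟨x, hx, hxe⟩ := h.2 e hw
      refine ⟨x, hx, ?_⟩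
      obtain ⟨z, hz⟩ := Sym2.mem_iff_exists.mp hxe
      rw [hz, Sym2.mem_iff] at h3
      rcases h3 with rfl | rfl
      · exact Or.inl rfl
      · exact Or.inr (adj_of_edge hz)
  · rintro e ⟨⟨w, hw, he⟩, hd⟩
    have hx : ∃ x ∈ S, x ∈ (e : Sym2 V) := by
      rcases he with rfl | ⟨x, e', rfl, h2, h3⟩ | ⟨_, _, -, h2, -⟩
      · exact h.2 e hw
      · obtain rfl : e = e' := Sum.inr_injective h2
        exact ⟨x, h.1 x hw, h3⟩
      · simp at h2
    obtain ⟨x, hx, hxe⟩ := hx
    obtain ⟨z, hz⟩ := Sym2.mem_iff_exists.mp hxe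
    rw [edist_inr v x z e hz] at hd
    rcases le_total (G.edist v x) (G.edist v z) with hle | hle
    · rw [min_eq_left hle] at hd
      exact ⟨x, z, hz, ⟨x, hx, Or.inl rfl⟩, ⟨x, hx, Or.inr (adj_of_edge hz)⟩, hle, hd⟩
    · rw [min_eq_right hle] at hd
      exact ⟨z, x, hz.trans Sym2.eq_swap, ⟨x, hx, Or.inr (adj_of_edge hz)⟩, ⟨x, hx, Or.inl rfl⟩,
        hle, hd⟩

theorem win_subdiv (j : ℕ) (S : Set V) (R : Set (V ⊕ G.edgeSet)) (hW : Win G j S)
    (hS : ¬ S.Subsingleton) (h : Shadow S R) : Win (subdiv G) j R := by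
  induction j generalizing S R with
  | zero => exact absurd hW hS
  | succ j ih =>
    rcases hW with hW | ⟨v, hv⟩
    · exact absurd hW hS
    refine Or.inr ⟨Sum.inl v, fun d' => ?_⟩
    obtain ⟨d, hd1, hd2, hd3⟩ := half_exists d'
    obtain ⟨s1, s2⟩ := shadow_step h v d'
    set R' := part (subdiv G) R (Sum.inl v) d'
    have t1 : ∀ y, Sum.inl y ∈ R' → y ∈ part G S v d := fun y hy =>
      ⟨(s1 y hy).1, hd1 _ (s1 y hy).2⟩
    by_cases hA : (part G S v d).Subsingleton
    swap
    · refine ih _ _ (hv d) hA ⟨t1, fun e he => ?_⟩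
      obtain ⟨a, b, h1, h2, -, -, h5⟩ := s2 e he
      exact ⟨a, ⟨h2, hd2 _ h5⟩, by rw [h1]; simp⟩
    have t2 : ∀ e : G.edgeSet, Sum.inr e ∈ R' → d ≠ ⊤ ∧ ∃ a b, (e : Sym2 V) = s(a, b) ∧
        a ∈ part G S v d ∧ b ∈ part G S v (d + 1) := by
      intro e he
      obtain ⟨a, b, h1, h2, h3, h4, h5⟩ := s2 e he
      have ha : G.edist v a = d := hd2 _ h5
      have hb : G.edist v b ≠ d := fun hb =>
        (adj_of_edge h1).ne (hA ⟨h2, ha⟩ ⟨h3, hb⟩)
      have hb2 := edist_le_of_adj v (adj_of_edge h1)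
      rw [ha] at h4 hb2
      have hlt : d < G.edist v b := lt_of_le_of_ne h4 (Ne.symm hb)
      exact ⟨hlt.ne_top, a, b, h1, ⟨h2, ha⟩, h3, le_antisymm hb2 (Order.add_one_le_of_lt hlt)⟩
    have t3 : ∀ y (e : G.edgeSet), Sum.inl y ∈ R' → Sum.inr e ∈ R' → False := by
      intro y e hy he
      obtain ⟨a, -, -, -, -, -, h5⟩ := s2 e he
      exact (t2 e he).1 (hd3 _ _ (s1 y hy).2 h5)
    by_cases hex : ∃ y, Sum.inl y ∈ R'
    · obtain ⟨y, hy⟩ := hex
      apply Win.of_subsingleton
      rintro (a | a) ha (b | b) hb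
      · rw [hA (t1 a ha) (t1 b hb)]
      · exact (t3 _ _ hy hb).elim
      · exact (t3 _ _ hy ha).elim
      · exact (t3 _ _ hy ha).elim
    by_cases hB : (part G S v (d + 1)).Subsingleton
    · apply Win.of_subsingleton
      rintro (a | a) ha (b | b) hb
      · exact (hex ⟨a, ha⟩).elim
      · exact (hex ⟨a, ha⟩).elim
      · exact (hex ⟨b, hb⟩).elim
      · obtain ⟨-, x, y, h1, h2, h3⟩ := t2 a ha
        obtain ⟨-, x', y', h1', h2', h3'⟩ := t2 b hb
        congr 1
        apply Subtype.ext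
        rw [h1, h1', hA h2 h2', hB h3 h3']
    · refine ih _ _ (hv (d + 1)) hB ⟨fun y hy => (hex ⟨y, hy⟩).elim, fun e he => ?_⟩
      obtain ⟨-, x, y, h1, -, h3⟩ := t2 e he
      exact ⟨y, h3, by rw [h1]; simp⟩

end Shadow

theorem result {V : Type u} (G : SimpleGraph V) (h : Locatable G) : Locatable (subdiv G) := by
  obtain ⟨σ, N, hσ⟩ := h
  have hW : Win G N Set.univ := by
    refine win_of_winsFrom N _ σ fun r hr _ => ?_
    obtain ⟨t, -, h2, h3⟩ := hσ r hr
    exact ⟨t, h2, fun r' hr' _ he => h3 r' hr' he⟩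
  have hW' : Win (subdiv G) N Set.univ := by
    by_cases hS : (Set.univ : Set V).Subsingleton
    · apply Win.of_subsingleton
      have hE : ∀ e : G.edgeSet, False := by
        rintro ⟨e, he⟩
        induction e using Sym2.ind with
        | h x y => exact (G.mem_edgeSet.mp he).ne (hS trivial trivial)
      rintro (a | a) - (b | b) -
      · rw [hS (Set.mem_univ a) (Set.mem_univ b)]
      · exact (hE b).elim
      · exact (hE a).elim
      · exact (hE a).elim
    · refine win_subdiv N _ _ hW hS ⟨fun _ _ => trivial, fun e _ => ?_⟩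
      exact ⟨(e : Sym2 V).out.1, trivial, Sym2.out_fst_mem _⟩
  have : Nonempty (V ⊕ G.edgeSet) := ⟨Sum.inl (σ [])⟩
  obtain ⟨σ', hσ'⟩ := winsFrom_of_win N _ hW'
  refine ⟨σ', N + 1, fun r hr => ?_⟩
  obtain ⟨t, ht, h1⟩ := hσ' r hr trivial
  cases t with
  | zero =>
    refine ⟨1, le_rfl, by omega, fun r' _ _ => ?_⟩
    exact (h1 (fun _ => r' 1) (const_walk _) trivial rfl).trans
      (h1 (fun _ => r 1) (const_walk _) trivial rfl).symm
  | succ t => exact ⟨t + 1, by omega, by omega, fun r' hr' he => h1 r' hr' trivial he⟩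

end Pool.Agent.Results.MP_6ae049_co.SubdivLocatable
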